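import Pool.Agent.Helper59.HR.Spec

/-! # HR, part STAY -/

set_option autoImplicit false

open MvPolynomial Pool.Agent.Helper59.LP

namespace Pool.Agent.Helper54.HR.STAY

variable {J : Type} [Fintype J] [DecidableEq J]

omit [DecidableEq J] [Fintype J] in
lemma cont (φ : MvPolynomial J ℝ →ₗ[ℝ] ℝ) (L U f : MvPolynomial J ℝ) (r : ℕ) :
    Continuous fun t : ℝ => φ ((L + C t * U) ^ r * f) := by
  have h : (fun t : ℝ => φ ((L + C t * U) ^ r * f)) = fun t => ∑ i ∈ Finset.range (r + 1),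
      t ^ (r - i) * φ (L ^ i * U ^ (r - i) * (r.choose i : MvPolynomial J ℝ) * f) := by
    funext t
    rw [add_pow, Finset.sum_mul, map_sum]
    refine Finset.sum_congr rfl fun i _ => ?_
    have h1 : L ^ i * (C t * U) ^ (r - i) * (r.choose i : MvPolynomial J ℝ) * f =
        t ^ (r - i) • (L ^ i * U ^ (r - i) * (r.choose i : MvPolynomial J ℝ) * f) := by
      rw [MvPolynomial.smul_eq_C_mul, mul_pow, ← map_pow]
      ring
    rw [h1, map_smul, smul_eq_mul]
  rw [h]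
  fun_prop

omit [DecidableEq J] [Fintype J] in
lemma hom1 {L U : MvPolynomial J ℝ} (hL : L.IsHomogeneous 1) (hU : U.IsHomogeneous 1) (s : ℝ) :
    (L + C s * U).IsHomogeneous 1 := by
  refine hL.add ?_
  have := (isHomogeneous_C J s).mul hU
  simpa using this

theorem sg_eq (hRKQ : S_RKQ) (hLA2 : S_LA2) (φ : MvPolynomial J ℝ →ₗ[ℝ] ℝ)
    (L U : MvPolynomial J ℝ) (n : ℕ) (a b : ℝ) (hL : L.IsHomogeneous 1) (hU : U.IsHomogeneous 1)
    (hab : a ≤ b) (hHL : ∀ s ∈ Set.Icc a b, HL φ (L + C s * U) n) (k : ℕ) (hk : 2 * k ≤ n) :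
    sg φ (L + C a * U) n k = sg φ (L + C b * U) n k := by
  obtain ⟨h1, h2⟩ := hLA2 (homogeneousSubmodule J ℝ k) (fun t => Qf φ (L + C t * U) n k) a b
    (rk φ n k) hab
    (fun t x y => by
      show φ ((L + C t * U) ^ (n - 2 * k) * (x.1 * y.1)) =
        φ ((L + C t * U) ^ (n - 2 * k) * (y.1 * x.1))
      rw [mul_comm x.1])
    (fun x y => cont φ L U (x.1 * y.1) (n - 2 * k))
    (fun t ht => (hRKQ J φ (L + C t * U) n k (hom1 hL hU t) hk).2 (hHL t ht))
  unfold sg
  rw [h1, h2]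

theorem main (hRKQ : S_RKQ) (hLA2 : S_LA2) : S_STAY := by
  intro J _ _ φ L U n a b hL hU hab hHL
  have key := sg_eq hRKQ hLA2 φ L U n a b hL hU hab hHL
  unfold IDX
  rw [key 0 (by omega)]
  refine and_congr Iff.rfl (forall_congr' fun k => ?_)
  refine imp_congr_right fun hk => ?_
  rw [key (k + 1) hk, key k (by omega)]

end Pool.Agent.Helper54.HR.STAY
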