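import Pool.Agent.Helper59.HR.Spec

/-! # HR, part TRL -/

set_option autoImplicit false

open MvPolynomial Pool.Agent.Helper59.LP

namespace Pool.Agent.Helper54.HR.TRL

variable {J : Type} [Fintype J] [DecidableEq J]

omit [DecidableEq J] in
lemma hom_Lf (c : J → ℝ) : (Lf c).IsHomogeneous 1 := by
  unfold Lf
  refine MvPolynomial.IsHomogeneous.sum _ _ _ fun j _ => ?_
  have := (isHomogeneous_C J (c j)).mul (isHomogeneous_X ℝ j)
  simpa using this

omit [DecidableEq J] in
lemma Lf_sub (c e : J → ℝ) : Lf (fun j => c j - e j) = Lf c - Lf e := by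
  unfold Lf
  rw [← Finset.sum_sub_distrib]
  refine Finset.sum_congr rfl fun j _ => ?_
  rw [C_sub, sub_mul]

theorem key {d : ℕ} (v : J → Ve d) (φ : MvPolynomial J ℝ →ₗ[ℝ] ℝ) (c : J → ℝ) (m : Ve d) (n : ℕ)
    (hV : Van v φ n) : ∀ (r e : ℕ) (g : MvPolynomial J ℝ), g.IsHomogeneous e → r + e = n →
    φ (Lf c ^ r * g) = φ (Lf (fun j => c j - dt m (v j)) ^ r * g) := by
  have hL' : Lf (fun j => c j - dt m (v j)) = Lf c - th v m := Lf_sub c _
  intro r
  induction r with
  | zero => intro e g _ _; simp
  | succ r ih =>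
    intro e g hg hn
    have h1 : Lf c ^ (r + 1) * g = Lf c ^ r * (Lf (fun j => c j - dt m (v j)) * g) +
        th v m * (Lf c ^ r * g) := by
      rw [hL']; ring
    have h2 : φ (th v m * (Lf c ^ r * g)) = 0 := by
      refine hV.2 m (r + e) _ (by omega) ?_
      have := ((hom_Lf c).pow r).mul hg
      simpa using this
    have h3 := ih (e + 1) (Lf (fun j => c j - dt m (v j)) * g)
      (by have := (hom_Lf (fun j => c j - dt m (v j))).mul hg; rwa [add_comm] at this) (by omega)
    rw [h1, map_add, h2, add_zero, h3, pow_succ, mul_assoc]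

theorem main : S_TRL := by
  intro J _ _ d v φ c m n hV
  have K := key v φ c m n hV
  constructor
  · unfold HL
    refine forall_congr' fun k => ?_
    refine imp_congr_right fun hk => ?_
    refine forall_congr' fun a => ?_
    refine imp_congr_right fun ha => ?_
    refine imp_congr_left ?_
    refine forall_congr' fun b => ?_
    refine imp_congr_right fun hb => ?_
    rw [K (n - 2 * k) (k + k) (a * b) (ha.mul hb) (by omega)]
  · intro k hk
    unfold HRk
    refine forall_congr' fun a => ?_
    refine imp_congr_right fun ha => ?_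
    have e1 : φ (Lf c ^ (n - 2 * k) * (a * a)) =
        φ (Lf (fun j => c j - dt m (v j)) ^ (n - 2 * k) * (a * a)) :=
      K (n - 2 * k) (k + k) (a * a) (ha.mul ha) (by omega)
    rw [e1]
    refine imp_congr_left ?_
    refine forall_congr' fun j => ?_
    refine forall_congr' fun b => ?_
    refine imp_congr_right fun hj => ?_
    refine imp_congr_right fun hb => ?_
    rw [K (n - 2 * k + 1) (k + j) (a * b) (ha.mul hb) (by omega)]

end Pool.Agent.Helper54.HR.TRL
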